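import Mathlib

/-!
# Unimodular matrices with an eigenvalue which is a root of unity other than one
-/

set_option autoImplicit false
set_option linter.unusedSectionVars false

open Matrix

namespace Pool.Agent.H66.TM

/-- adapted coordinates -/
structure Adapted {k : ℕ} (A : Matrix (Fin k) (Fin k) ℤ) (m k₁ k₂ : ℕ)
    (P₁ : Matrix (Fin k₁) (Fin k) ℤ) (P₂ : Matrix (Fin k₂) (Fin k) ℤ)
    (S₁ : Matrix (Fin k) (Fin k₁) ℤ) (S₂ : Matrix (Fin k) (Fin k₂) ℤ)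
    (A₁ : Matrix (Fin k₁) (Fin k₁) ℤ) (A₂ : Matrix (Fin k₂) (Fin k₂) ℤ)
    (L : Matrix (Fin k₂) (Fin k₁) ℤ) : Prop where
  lt : k₂ < k
  p1s1 : P₁ * S₁ = 1
  p1s2 : P₁ * S₂ = 0
  p2s1 : P₂ * S₁ = 0
  p2s2 : P₂ * S₂ = 1
  sp : S₁ * P₁ + S₂ * P₂ = 1
  p1a : P₁ * A = A₁ * P₁
  p2a : P₂ * A = L * P₁ + A₂ * P₂
  fin : A₁ ^ m = 1
  unit : IsUnit A₂.det

theorem exists_adapted {k : ℕ} (A : Matrix (Fin k) (Fin k) ℤ) (hA : IsUnit A.det) {m : ℕ}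
    (h : (A ^ m - 1).det = 0) :
    ∃ (k₁ k₂ : ℕ) (P₁ : Matrix (Fin k₁) (Fin k) ℤ) (P₂ : Matrix (Fin k₂) (Fin k) ℤ)
      (S₁ : Matrix (Fin k) (Fin k₁) ℤ) (S₂ : Matrix (Fin k) (Fin k₂) ℤ)
      (A₁ : Matrix (Fin k₁) (Fin k₁) ℤ) (A₂ : Matrix (Fin k₂) (Fin k₂) ℤ)
      (L : Matrix (Fin k₂) (Fin k₁) ℤ), Adapted A m k₁ k₂ P₁ P₂ S₁ S₂ A₁ A₂ L := by
  classical
  set φ : (Fin k → ℤ) →ₗ[ℤ] (Fin k → ℤ) := Matrix.vecMulLinear (A ^ m - 1) with hφ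
  have hφv : ∀ v, φ v = v ᵥ* (A ^ m - 1) := fun v => rfl
  set E := LinearMap.ker φ with hE
  have hmem : ∀ v, v ∈ E ↔ v ᵥ* (A ^ m - 1) = 0 := fun v => by rw [hE, LinearMap.mem_ker, hφv]
  have hmem' : ∀ v, v ∈ E ↔ v ᵥ* (A ^ m) = v := fun v => by
    rw [hmem, Matrix.vecMul_sub, Matrix.vecMul_one, sub_eq_zero]
  -- `E ≠ 0`
  obtain ⟨v₀, hv₀, hv₀'⟩ := Matrix.exists_vecMul_eq_zero_iff.mpr h
  have hv₀E : v₀ ∈ E := by
    rw [hmem]
    exact hv₀'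
  -- bases
  have hfree : Module.Free ℤ ((Fin k → ℤ) ⧸ E) :=
    Module.Free.of_equiv (LinearMap.quotKerEquivRange φ).symm
  obtain ⟨k₁, ⟨bE⟩⟩ : ∃ k₁ : ℕ, Nonempty (Module.Basis (Fin k₁) ℤ E) :=
    ⟨_, ⟨Module.finBasis ℤ E⟩⟩
  obtain ⟨k₂, ⟨bQ⟩⟩ : ∃ k₂ : ℕ, Nonempty (Module.Basis (Fin k₂) ℤ ((Fin k → ℤ) ⧸ E)) :=
    ⟨_, ⟨Module.finBasis ℤ ((Fin k → ℤ) ⧸ E)⟩⟩
  obtain ⟨b, hb⟩ : ∃ b : Module.Basis (Fin k₁ ⊕ Fin k₂) ℤ (Fin k → ℤ), b = bE.sumQuot bQ :=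
    ⟨_, rfl⟩
  have hbl : ∀ i, b (Sum.inl i) = bE i := fun i => by
    rw [hb]
    exact Module.Basis.sumQuot_inl bE bQ i
  have hlt : k₂ < k := by
    have h1 := Submodule.finrank_quotient_add_finrank E
    rw [Module.finrank_fin_fun] at h1
    have h2 : 0 < Module.finrank ℤ E := by
      have : Nontrivial E := ⟨⟨⟨v₀, hv₀E⟩, 0, fun h => hv₀ (congrArg Subtype.val h)⟩⟩
      exact Module.finrank_pos
    have h3 := Module.finrank_eq_card_basis bQ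
    rw [Fintype.card_fin] at h3
    omega
  let P₁ : Matrix (Fin k₁) (Fin k) ℤ := Matrix.of fun i j => b (Sum.inl i) j
  let P₂ : Matrix (Fin k₂) (Fin k) ℤ := Matrix.of fun i j => b (Sum.inr i) j
  let S₁ : Matrix (Fin k) (Fin k₁) ℤ := Matrix.of fun j i => b.repr (Pi.single j 1) (Sum.inl i)
  let S₂ : Matrix (Fin k) (Fin k₂) ℤ := Matrix.of fun j i => b.repr (Pi.single j 1) (Sum.inr i)
  have hrep : ∀ (v : Fin k → ℤ) x, ∑ j, v j * b.repr (Pi.single j 1) x = b.repr v x := by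
    intro v x
    have h1 : v = ∑ j, v j • (Pi.single j (1 : ℤ) : Fin k → ℤ) := by
      ext i
      simp [Finset.sum_apply, Pi.single_apply]
    conv_rhs => rw [h1]
    rw [map_sum, Finsupp.finsetSum_apply]
    exact Finset.sum_congr rfl fun j _ => by rw [map_smul]; rfl
  have e11 : P₁ * S₁ = 1 := by
    ext i i'
    show ∑ j, b (Sum.inl i) j * b.repr (Pi.single j 1) (Sum.inl i') = _
    rw [hrep, Module.Basis.repr_self, Finsupp.single_apply, Matrix.one_apply]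
    simp [Sum.inl.injEq]
  have e12 : P₁ * S₂ = 0 := by
    ext i i'
    show ∑ j, b (Sum.inl i) j * b.repr (Pi.single j 1) (Sum.inr i') = _
    rw [hrep, Module.Basis.repr_self, Finsupp.single_apply]
    simp
  have e21 : P₂ * S₁ = 0 := by
    ext i i'
    show ∑ j, b (Sum.inr i) j * b.repr (Pi.single j 1) (Sum.inl i') = _
    rw [hrep, Module.Basis.repr_self, Finsupp.single_apply]
    simp
  have e22 : P₂ * S₂ = 1 := by
    ext i i'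
    show ∑ j, b (Sum.inr i) j * b.repr (Pi.single j 1) (Sum.inr i') = _
    rw [hrep, Module.Basis.repr_self, Finsupp.single_apply, Matrix.one_apply]
    simp [Sum.inr.injEq]
  have esp : S₁ * P₁ + S₂ * P₂ = 1 := by
    ext j j'
    show ∑ i, b.repr (Pi.single j 1) (Sum.inl i) * b (Sum.inl i) j' +
      ∑ i, b.repr (Pi.single j 1) (Sum.inr i) * b (Sum.inr i) j' = _
    have h1 := b.sum_repr (Pi.single j (1 : ℤ) : Fin k → ℤ)
    have h2 := congrFun h1 j'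
    rw [Fintype.sum_sum_type, Pi.add_apply, Finset.sum_apply, Finset.sum_apply] at h2
    rw [Matrix.one_apply]
    rw [Pi.single_apply] at h2
    simp only [eq_comm (a := j)]
    exact h2
  -- rows of `P₁ A`
  have hrow : ∀ (B : Matrix (Fin k) (Fin k) ℤ), (∀ v ∈ E, v ᵥ* B ∈ E) → P₁ * B * S₂ = 0 := by
    intro B hB
    ext i i'
    have h1 : (bE i : Fin k → ℤ) ᵥ* B ∈ E := hB _ (bE i).2
    have h2 : (P₁ * B * S₂) i i' = b.repr ((bE i : Fin k → ℤ) ᵥ* B) (Sum.inr i') := by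
      rw [← hrep]
      show ∑ j, (P₁ * B) i j * b.repr (Pi.single j 1) (Sum.inr i') = _
      refine Finset.sum_congr rfl fun j _ => ?_
      congr 1
      show ∑ a, b (Sum.inl i) a * B a j = ∑ a, (bE i : Fin k → ℤ) a * B a j
      rw [hbl]
    rw [h2]
    have h3 : ((bE i : Fin k → ℤ) ᵥ* B) = ∑ c, bE.repr ⟨_, h1⟩ c • b (Sum.inl c) := by
      have h4 := congrArg (Subtype.val) (bE.sum_repr ⟨_, h1⟩)
      rw [Submodule.coe_sum] at h4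
      refine h4.symm.trans ?_
      refine Finset.sum_congr rfl fun c _ => ?_
      rw [hbl]
      rfl
    rw [h3, map_sum, Finsupp.finsetSum_apply]
    refine Finset.sum_eq_zero fun c _ => ?_
    rw [map_smul, Module.Basis.repr_self, Finsupp.smul_apply, Finsupp.single_apply]
    simp
  have hEA : ∀ v ∈ E, v ᵥ* A ∈ E := by
    intro v hv
    rw [hmem'] at hv ⊢
    rw [Matrix.vecMul_vecMul, ← pow_succ', pow_succ, ← Matrix.vecMul_vecMul, hv]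
  have hPA : P₁ * A * S₂ = 0 := hrow A hEA
  -- the inverse
  obtain ⟨B, hAB, hBA⟩ : ∃ B : Matrix (Fin k) (Fin k) ℤ, A * B = 1 ∧ B * A = 1 :=
    ⟨A⁻¹, Matrix.mul_nonsing_inv A hA, Matrix.nonsing_inv_mul A hA⟩
  have hEB : ∀ v ∈ E, v ᵥ* B ∈ E := by
    intro v hv
    rw [hmem'] at hv ⊢
    have h1 : A ^ m * B = B * A ^ m := by
      have h2 : Commute A B := by
        show A * B = B * A
        rw [hAB, hBA]
      exact (h2.pow_left m).eq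
    rw [Matrix.vecMul_vecMul, ← h1, ← Matrix.vecMul_vecMul, hv]
  have hPB : P₁ * B * S₂ = 0 := hrow B hEB
  obtain ⟨A₁, hA₁⟩ : ∃ A₁, A₁ = P₁ * A * S₁ := ⟨_, rfl⟩
  obtain ⟨A₂, hA₂⟩ : ∃ A₂, A₂ = P₂ * A * S₂ := ⟨_, rfl⟩
  obtain ⟨L, hL⟩ : ∃ L, L = P₂ * A * S₁ := ⟨_, rfl⟩
  have hdec1 : P₁ * A = A₁ * P₁ := by
    have h1 : P₁ * A * (S₁ * P₁ + S₂ * P₂) = P₁ * A := by rw [esp, Matrix.mul_one]
    rw [Matrix.mul_add, ← Matrix.mul_assoc, ← Matrix.mul_assoc, hPA, Matrix.zero_mul,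
      add_zero, ← hA₁] at h1
    exact h1.symm
  have hdec2 : P₂ * A = L * P₁ + A₂ * P₂ := by
    have h1 : P₂ * A * (S₁ * P₁ + S₂ * P₂) = P₂ * A := by rw [esp, Matrix.mul_one]
    rw [Matrix.mul_add, ← Matrix.mul_assoc, ← Matrix.mul_assoc, ← hA₂, ← hL] at h1
    exact h1.symm
  refine ⟨k₁, k₂, P₁, P₂, S₁, S₂, A₁, A₂, L, hlt, e11, e12, e21, e22,
    esp, hdec1, hdec2, ?_, ?_⟩
  · have h1 : ∀ j, P₁ * A ^ j = A₁ ^ j * P₁ := by
      intro j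
      induction j with
      | zero => rw [pow_zero, pow_zero, Matrix.mul_one, Matrix.one_mul]
      | succ j ih =>
        rw [pow_succ, ← Matrix.mul_assoc, ih, Matrix.mul_assoc, hdec1, ← Matrix.mul_assoc,
          ← pow_succ]
    have h2 : P₁ * A ^ m = P₁ := by
      ext i j
      have h3 : (bE i : Fin k → ℤ) ᵥ* A ^ m = bE i := (hmem' _).mp (bE i).2
      have h4 := congrFun h3 j
      rw [← hbl] at h4
      exact h4
    have h3 := h1 m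
    rw [h2] at h3
    have h4 : P₁ * S₁ = A₁ ^ m * P₁ * S₁ := congrArg (· * S₁) h3
    rw [Matrix.mul_assoc, e11, Matrix.mul_one] at h4
    exact h4.symm
  · refine Matrix.isUnit_det_of_right_inverse (B := P₂ * B * S₂) ?_
    have h1 : P₂ * A * B * S₂ = 1 := by
      rw [Matrix.mul_assoc P₂ A B, hAB, Matrix.mul_one, e22]
    have h2 : P₂ * A * B * S₂ = L * (P₁ * B * S₂) + A₂ * (P₂ * B * S₂) := by
      rw [hdec2]
      simp only [Matrix.add_mul, Matrix.mul_assoc]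
    rw [hPB, Matrix.mul_zero, zero_add] at h2
    rw [← h2, h1]

theorem det_of_sum {k : ℕ} {A : Matrix (Fin k) (Fin k) ℤ} {m : ℕ}
    (h : (∑ i ∈ Finset.range m, A ^ i).det = 0) : (A ^ m - 1).det = 0 := by
  rw [← geom_sum_mul, Matrix.det_mul, h, zero_mul]

section

variable {k m k₁ k₂ : ℕ} {P₁ : Matrix (Fin k₁) (Fin k) ℤ} {P₂ : Matrix (Fin k₂) (Fin k) ℤ}
  {S₁ : Matrix (Fin k) (Fin k₁) ℤ} {S₂ : Matrix (Fin k) (Fin k₂) ℤ}
  {A : Matrix (Fin k) (Fin k) ℤ} {A₁ : Matrix (Fin k₁) (Fin k₁) ℤ}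
  {A₂ : Matrix (Fin k₂) (Fin k₂) ℤ} {L : Matrix (Fin k₂) (Fin k₁) ℤ}

/-- the matrices which respect the decomposition -/
def Resp (P₁ : Matrix (Fin k₁) (Fin k) ℤ) (P₂ : Matrix (Fin k₂) (Fin k) ℤ)
    (S₂ : Matrix (Fin k) (Fin k₂) ℤ) (X : Matrix (Fin k) (Fin k) ℤ)
    (Y : Matrix (Fin k₂) (Fin k₂) ℤ) : Prop := P₁ * X * S₂ = 0 ∧ P₂ * X * S₂ = Y

theorem resp_one (H : Adapted A m k₁ k₂ P₁ P₂ S₁ S₂ A₁ A₂ L) : Resp P₁ P₂ S₂ 1 1 :=
  ⟨by rw [Matrix.mul_one, H.p1s2], by rw [Matrix.mul_one, H.p2s2]⟩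

theorem resp_mul (H : Adapted A m k₁ k₂ P₁ P₂ S₁ S₂ A₁ A₂ L) {X X' : Matrix (Fin k) (Fin k) ℤ}
    {Y Y' : Matrix (Fin k₂) (Fin k₂) ℤ} (h : Resp P₁ P₂ S₂ X Y) (h' : Resp P₁ P₂ S₂ X' Y') :
    Resp P₁ P₂ S₂ (X * X') (Y * Y') := by
  have key : ∀ {l : ℕ} (P : Matrix (Fin l) (Fin k) ℤ), P * (X * X') * S₂ =
      P * X * S₁ * (P₁ * X' * S₂) + P * X * S₂ * (P₂ * X' * S₂) := by
    intro l P
    have h1 : P * (X * X') * S₂ = P * X * (S₁ * P₁ + S₂ * P₂) * X' * S₂ := by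
      rw [H.sp, Matrix.mul_one, Matrix.mul_assoc P X X']
    rw [h1]
    simp only [Matrix.mul_add, Matrix.add_mul, Matrix.mul_assoc]
  constructor
  · rw [key, h'.1, h.1, Matrix.mul_zero, Matrix.zero_mul, add_zero]
  · rw [key, h'.1, h.2, h'.2, Matrix.mul_zero, zero_add]

theorem resp_pow (H : Adapted A m k₁ k₂ P₁ P₂ S₁ S₂ A₁ A₂ L) {X : Matrix (Fin k) (Fin k) ℤ}
    {Y : Matrix (Fin k₂) (Fin k₂) ℤ} (h : Resp P₁ P₂ S₂ X Y) (j : ℕ) :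
    Resp P₁ P₂ S₂ (X ^ j) (Y ^ j) := by
  induction j with
  | zero => rw [pow_zero, pow_zero]; exact resp_one H
  | succ j ih => rw [pow_succ, pow_succ]; exact resp_mul H ih h

theorem resp_sub {X X' : Matrix (Fin k) (Fin k) ℤ}
    {Y Y' : Matrix (Fin k₂) (Fin k₂) ℤ} (h : Resp P₁ P₂ S₂ X Y) (h' : Resp P₁ P₂ S₂ X' Y') :
    Resp P₁ P₂ S₂ (X - X') (Y - Y') := by
  constructor
  · rw [Matrix.mul_sub, Matrix.sub_mul, h.1, h'.1, sub_zero]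
  · rw [Matrix.mul_sub, Matrix.sub_mul, h.2, h'.2]

theorem resp_self (H : Adapted A m k₁ k₂ P₁ P₂ S₁ S₂ A₁ A₂ L) : Resp P₁ P₂ S₂ A A₂ := by
  constructor
  · rw [H.p1a, Matrix.mul_assoc, H.p1s2, Matrix.mul_zero]
  · rw [H.p2a, Matrix.add_mul, Matrix.mul_assoc, Matrix.mul_assoc, H.p1s2, H.p2s2,
      Matrix.mul_zero, zero_add, Matrix.mul_one]

/-- All eigenvalues of `A` are roots of unity: `(A ^ m - 1) ^ j = 0`. -/
def QuasiUnipotent {k : ℕ} (A : Matrix (Fin k) (Fin k) ℤ) : Prop :=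
  ∃ m j : ℕ, 1 ≤ m ∧ (A ^ m - 1) ^ j = 0

theorem quasi_adapted (H : Adapted A m k₁ k₂ P₁ P₂ S₁ S₂ A₁ A₂ L) (h : QuasiUnipotent A) :
    QuasiUnipotent A₂ := by
  obtain ⟨m', j, hm', h0⟩ := h
  refine ⟨m', j, hm', ?_⟩
  have h1 := resp_pow H (resp_sub (resp_pow H (resp_self H) m') (resp_one H)) j
  rw [h0] at h1
  have h2 := h1.2
  rw [Matrix.mul_zero, Matrix.zero_mul] at h2
  exact h2.symm

theorem quasi_det (hk : 0 < k) {m j : ℕ} (h : (A ^ m - 1) ^ j = 0) : (A ^ m - 1).det = 0 := by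
  have h1 := congrArg Matrix.det h
  have : Nonempty (Fin k) := ⟨⟨0, hk⟩⟩
  rw [Matrix.det_pow, Matrix.det_zero] at h1
  rcases Nat.eq_zero_or_pos j with h0 | h0
  · subst h0
    rw [pow_zero] at h1
    exact absurd h1 one_ne_zero
  · exact (pow_eq_zero_iff h0.ne').mp h1

end

end Pool.Agent.H66.TM
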