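import Pool.Agent.H66.TM.Lin
import Pool.Agent.H66.L.T64922ed1.X84.Pm.Defs

/-!
# Affine maps of the torus with linear part of finite order
-/

set_option autoImplicit false
set_option linter.unusedSectionVars false

open Set Filter Topology
open scoped Manifold ContDiff

namespace Pool.Agent.H66.TM

open Pool.Agent.H718R2.G Pool.Agent.X84.Tor Pool.Agent.X84.Pm

noncomputable section

variable {k : ℕ}

theorem sum_pow {M : Matrix (Fin k) (Fin k) ℤ} {m : ℕ} (hM : M ^ m = 1) :
    M * (∑ j ∈ Finset.range m, M ^ j) = ∑ j ∈ Finset.range m, M ^ j := by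
  rw [Finset.mul_sum]
  have h1 : ∀ j ∈ Finset.range m, M * M ^ j = M ^ (j + 1) := fun j _ => (pow_succ' M j).symm
  rw [Finset.sum_congr rfl h1]
  have h2 := Finset.sum_range_succ (fun j => M ^ j) m
  have h3 := Finset.sum_range_succ' (fun j => M ^ j) m
  rw [h2, hM, pow_zero] at h3
  exact (add_right_cancel h3).symm

theorem linV_mul {l m : ℕ} (A : Matrix (Fin l) (Fin k) ℤ) (B : Matrix (Fin k) (Fin m) ℤ)
    (v : EuclideanSpace ℝ (Fin m)) : linV (A * B) v = linV A (linV B v) := by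
  ext i
  rw [linV_apply, linV_apply]
  simp_rw [linV_apply, Matrix.mul_apply, Int.cast_sum, Int.cast_mul, Finset.sum_mul,
    Finset.mul_sum, mul_assoc]
  exact Finset.sum_comm

theorem sum_sq {M : Matrix (Fin k) (Fin k) ℤ} {m : ℕ} (hM : M ^ m = 1) :
    (∑ j ∈ Finset.range m, M ^ j) * (∑ j ∈ Finset.range m, M ^ j) =
      (m : ℤ) • ∑ j ∈ Finset.range m, M ^ j := by
  set S := ∑ j ∈ Finset.range m, M ^ j with hS
  have h1 : ∀ j, M ^ j * S = S := by
    intro j
    induction j with
    | zero => rw [pow_zero, one_mul]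
    | succ j ih => rw [pow_succ, mul_assoc, sum_pow hM, ih]
  conv_lhs => rw [hS, Finset.sum_mul]
  rw [← hS, Finset.sum_congr rfl fun j _ => h1 j, Finset.sum_const, Finset.card_range]
  simp

theorem linV_smulm {l : ℕ} (c : ℤ) (A : Matrix (Fin l) (Fin k) ℤ) (v : EuclideanSpace ℝ (Fin k)) :
    linV (c • A) v = (c : ℝ) • linV A v := by
  ext i
  show ∑ j, (((c • A) i j : ℤ) : ℝ) * v j = (c : ℝ) * ∑ j, (A i j : ℝ) * v j
  rw [Finset.mul_sum]
  refine Finset.sum_congr rfl fun j _ => ?_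
  rw [Matrix.smul_apply, smul_eq_mul]
  push_cast
  ring

theorem lin_sum (M : ℕ → Matrix (Fin k) (Fin k) ℤ) (s : Finset ℕ) (y : Tor k) :
    lin (∑ j ∈ s, M j) y = ∑ j ∈ s, lin (M j) y := by
  classical
  induction s using Finset.induction_on with
  | empty => rw [Finset.sum_empty, Finset.sum_empty, lin_zerom]
  | insert a s ha ih => rw [Finset.sum_insert ha, Finset.sum_insert ha, lin_addm, ih]

/-- iterates of affine maps -/
theorem aff_iter (M : Matrix (Fin k) (Fin k) ℤ) (d : Tor k) (j : ℕ) (y : Tor k) :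
    (fun y => lin M y + d)^[j] y = lin (M ^ j) y + lin (∑ i ∈ Finset.range j, M ^ i) d := by
  induction j with
  | zero => simp [lin_one, lin_zerom]
  | succ j ih =>
    rw [Function.iterate_succ_apply', ih]
    show lin M (lin (M ^ j) y + lin (∑ i ∈ Finset.range j, M ^ i) d) + d = _
    rw [lin_add, ← lin_mul, ← lin_mul, ← pow_succ', Finset.sum_range_succ', pow_zero, lin_addm,
      lin_one, Finset.mul_sum, add_assoc]
    congr 3
    exact Finset.sum_congr rfl fun i _ => by rw [pow_succ']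

theorem affine_compactAbelian {M : Matrix (Fin k) (Fin k) ℤ} {m : ℕ} (hm : 1 ≤ m)
    (hM : M ^ m = 1) (c : Tor k) : CompactAbelian (V k) (fun y : Tor k => lin M y + c) := by
  obtain ⟨c', rfl⟩ := mk_surj k c
  set S : Matrix (Fin k) (Fin k) ℤ := ∑ j ∈ Finset.range m, M ^ j with hS
  have hMS : M * S = S := sum_pow hM
  have hm0 : (m : ℝ) ≠ 0 := by
    have : (0 : ℝ) < m := by exact_mod_cast hm
    exact this.ne'
  let e : (Fin k → ℝ) →L[ℝ] EuclideanSpace ℝ (Fin k) :=
    ((EuclideanSpace.equiv (Fin k) ℝ).symm : (Fin k → ℝ) →L[ℝ] EuclideanSpace ℝ (Fin k))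
  have he : ∀ t i, e t i = t i := fun t i => rfl
  let S' : (Fin k → ℝ) →L[ℝ] EuclideanSpace ℝ (Fin k) := (linV S).comp e
  have hS' : ∀ t, S' t = linV S (e t) := fun t => rfl
  let t₀ : Fin k → ℝ := fun i => c' i / m
  have ht₀ : e t₀ = (1 / (m : ℝ)) • c' := by
    ext i
    show c' i / m = 1 / (m : ℝ) * c' i
    ring
  have hfix : ∀ v : EuclideanSpace ℝ (Fin k), lin M (mk (linV S v)) = mk (linV S v) := by
    intro v
    rw [← lin_mk, ← lin_mul, hMS]
  set d : EuclideanSpace ℝ (Fin k) := c' - linV S (e t₀) with hd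
  have hSd : linV S d = 0 := by
    rw [hd, map_sub, ← linV_mul, hS, sum_sq hM, ← hS, linV_smulm, ht₀, map_smul, smul_smul]
    have : (((m : ℤ) : ℝ)) * (1 / (m : ℝ)) = 1 := by
      push_cast
      field_simp
    rw [this, one_smul, sub_self]
  have hmkd : mk c' = mk d + mk (linV S (e t₀)) := by
    rw [← mk_add, hd, sub_add_cancel]
  refine ⟨k, tr S', fun y => lin M y + mk d, t₀, ⟨tr_smooth S', tr_zero S', tr_add S', ?_⟩, ?_,
    ⟨m, hm, ?_⟩, ?_, fun _ _ => rfl, fun _ => rfl, ?_⟩
  · intro i x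
    show mk (linV S (e (Pi.single i 1))) + x = x
    have h1 : mk (e (Pi.single i 1)) = 0 := by
      rw [← mk_zero, mk_eq_iff]
      intro j
      by_cases hj : j = i
      · subst hj
        exact ⟨1, by rw [he]; simp⟩
      · exact ⟨0, by rw [he]; simp [Pi.single_eq_of_ne hj]⟩
    rw [← lin_mk, h1, lin_zero, zero_add]
  · exact ContMDiff.tadd (r := ⊤) (lin_smooth M) contMDiff_const
  · funext y
    rw [aff_iter, hM, lin_one, ← hS, lin_mk, hSd, mk_zero, add_zero]
    rfl
  · intro s x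
    show lin M (mk (linV S (e s)) + x) + mk d = mk (linV S (e s)) + (lin M x + mk d)
    rw [lin_add, hfix, add_assoc]
  · intro x
    show lin M x + mk c' = lin M (mk (linV S (e t₀)) + x) + mk d
    rw [lin_add, hfix, hmkd]
    abel

end

end Pool.Agent.H66.TM
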