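import Mathlib

/-!
# Products of manifolds modelled on Euclidean spaces
-/

set_option autoImplicit false
set_option linter.unusedSectionVars false

open Set Filter Topology
open scoped Manifold ContDiff

universe v w

namespace Pool.Agent.H66.TM

noncomputable section

/-- The product `B × K`, as a manifold modelled on `ℝ^(d + l)`. -/
def PM (d l : ℕ) (B : Type v) (K : Type w) : Type (max v w) := B × K

variable {d l : ℕ} {B : Type v} {K : Type w}

instance [TopologicalSpace B] [TopologicalSpace K] : TopologicalSpace (PM d l B K) :=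
  inferInstanceAs (TopologicalSpace (B × K))

instance [TopologicalSpace B] [TopologicalSpace K] [T2Space B] [T2Space K] :
    T2Space (PM d l B K) := inferInstanceAs (T2Space (B × K))

instance [TopologicalSpace B] [TopologicalSpace K] [CompactSpace B] [CompactSpace K] :
    CompactSpace (PM d l B K) := inferInstanceAs (CompactSpace (B × K))

/-- linear coordinates of the product of the model spaces -/
def lc (d l : ℕ) : (EuclideanSpace ℝ (Fin d) × EuclideanSpace ℝ (Fin l)) ≃L[ℝ]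
    EuclideanSpace ℝ (Fin (d + l)) :=
  ContinuousLinearEquiv.ofFinrankEq (by simp)

/-- the same as a homeomorphism of the product of the model spaces -/
def lh (d l : ℕ) : (ModelProd (EuclideanSpace ℝ (Fin d)) (EuclideanSpace ℝ (Fin l))) ≃ₜ
    EuclideanSpace ℝ (Fin (d + l)) := (lc d l).toHomeomorph

theorem lh_apply (x : EuclideanSpace ℝ (Fin d) × EuclideanSpace ℝ (Fin l)) :
    lh d l x = lc d l x := rfl

theorem lh_symm_apply (x : EuclideanSpace ℝ (Fin (d + l))) :
    (lh d l).symm x = (lc d l).symm x := rfl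

variable [TopologicalSpace B] [TopologicalSpace K] [ChartedSpace (EuclideanSpace ℝ (Fin d)) B]
  [ChartedSpace (EuclideanSpace ℝ (Fin l)) K]

/-- The charts are the products of charts. -/
instance : ChartedSpace (EuclideanSpace ℝ (Fin (d + l))) (PM d l B K) where
  atlas := {e | ∃ e₀ ∈ atlas (ModelProd (EuclideanSpace ℝ (Fin d)) (EuclideanSpace ℝ (Fin l)))
    (B × K), e = e₀.transHomeomorph (lh d l)}
  chartAt x := (chartAt (ModelProd (EuclideanSpace ℝ (Fin d)) (EuclideanSpace ℝ (Fin l)))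
    (show B × K from x)).transHomeomorph (lh d l)
  mem_chart_source x := mem_chart_source
    (ModelProd (EuclideanSpace ℝ (Fin d)) (EuclideanSpace ℝ (Fin l))) (show B × K from x)
  chart_mem_atlas x := ⟨_, chart_mem_atlas _ _, rfl⟩

instance [IsManifold (𝓡 d) ∞ B] [IsManifold (𝓡 l) ∞ K] :
    IsManifold (𝓡 (d + l)) ∞ (PM d l B K) := by
  refine isManifold_of_contDiffOn _ _ _ fun e e' he he' => ?_
  obtain ⟨e₀, h₀, rfl⟩ := he
  obtain ⟨e₀', h₀', rfl⟩ := he'
  have h1 := ((contDiffGroupoid ∞ ((𝓡 d).prod (𝓡 l))).compatible h₀ h₀').1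
  have h2 : ContDiffOn ℝ ∞ ((lc d l) ∘ (((𝓡 d).prod (𝓡 l)) ∘ (e₀.symm ≫ₕ e₀') ∘
      ((𝓡 d).prod (𝓡 l)).symm) ∘ (lc d l).symm)
      ((lc d l).symm ⁻¹' (((𝓡 d).prod (𝓡 l)).symm ⁻¹' (e₀.symm ≫ₕ e₀').source ∩
        range ((𝓡 d).prod (𝓡 l)))) :=
    (lc d l).contDiff.comp_contDiffOn (h1.comp (lc d l).symm.contDiff.contDiffOn
      (fun x hx => hx))
  refine h2.mono ?_
  intro x hx
  obtain ⟨hx1, -⟩ := hx
  refine ⟨?_, ?_⟩
  · rw [OpenPartialHomeomorph.trans_source] at hx1 ⊢
    exact hx1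
  · rw [ModelWithCorners.range_eq_univ]
    trivial

/-- the identity, from the product to its copy -/
theorem toPM_smooth [IsManifold (𝓡 d) ∞ B] [IsManifold (𝓡 l) ∞ K] :
    ContMDiff ((𝓡 d).prod (𝓡 l)) (𝓡 (d + l)) ∞ (fun x : B × K => (show PM d l B K from x)) := by
  intro x
  rw [contMDiffAt_iff]
  refine ⟨continuousAt_id, ?_⟩
  have h1 : ContDiffWithinAt ℝ ∞ (lc d l) (range ((𝓡 d).prod (𝓡 l)))
      (extChartAt ((𝓡 d).prod (𝓡 l)) x x) := (lc d l).contDiff.contDiffWithinAt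
  refine h1.congr_of_eventuallyEq ?_ ?_
  · filter_upwards [extChartAt_target_mem_nhdsWithin (I := (𝓡 d).prod (𝓡 l)) x] with y hy
    show lc d l ((extChartAt ((𝓡 d).prod (𝓡 l)) x) ((extChartAt ((𝓡 d).prod (𝓡 l)) x).symm y)) = _
    rw [(extChartAt ((𝓡 d).prod (𝓡 l)) x).right_inv hy]
  · show lc d l ((extChartAt ((𝓡 d).prod (𝓡 l)) x) ((extChartAt ((𝓡 d).prod (𝓡 l)) x).symm
      ((extChartAt ((𝓡 d).prod (𝓡 l)) x) x))) = _
    rw [(extChartAt ((𝓡 d).prod (𝓡 l)) x).left_inv (mem_extChartAt_source x)]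

theorem ofPM_smooth [IsManifold (𝓡 d) ∞ B] [IsManifold (𝓡 l) ∞ K] :
    ContMDiff (𝓡 (d + l)) ((𝓡 d).prod (𝓡 l)) ∞ (fun x : PM d l B K => (show B × K from x)) := by
  intro x
  rw [contMDiffAt_iff]
  refine ⟨continuousAt_id, ?_⟩
  have h1 : ContDiffWithinAt ℝ ∞ (lc d l).symm (range (𝓡 (d + l)))
      (extChartAt (𝓡 (d + l)) x x) := (lc d l).symm.contDiff.contDiffWithinAt
  refine h1.congr_of_eventuallyEq ?_ ?_
  · filter_upwards [extChartAt_target_mem_nhdsWithin (I := 𝓡 (d + l)) x] with y hy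
    have h2 := (extChartAt (𝓡 (d + l)) x).right_inv hy
    have h3 : lc d l ((extChartAt ((𝓡 d).prod (𝓡 l)) (show B × K from x))
      ((extChartAt (𝓡 (d + l)) x).symm y)) = y := h2
    show (extChartAt ((𝓡 d).prod (𝓡 l)) (show B × K from x))
      ((extChartAt (𝓡 (d + l)) x).symm y) = (lc d l).symm y
    rw [← h3, (lc d l).symm_apply_apply, h3]
  · have h2 := (extChartAt (𝓡 (d + l)) x).left_inv (mem_extChartAt_source x)
    show (extChartAt ((𝓡 d).prod (𝓡 l)) (show B × K from x))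
      ((extChartAt (𝓡 (d + l)) x).symm (extChartAt (𝓡 (d + l)) x x)) =
        (lc d l).symm (extChartAt (𝓡 (d + l)) x x)
    rw [h2]
    show _ = (lc d l).symm (lc d l ((extChartAt ((𝓡 d).prod (𝓡 l)) (show B × K from x)) x))
    rw [(lc d l).symm_apply_apply]

/-- the identity as a diffeomorphism -/
def pmD (d l : ℕ) (B : Type v) (K : Type w) [TopologicalSpace B] [TopologicalSpace K]
    [ChartedSpace (EuclideanSpace ℝ (Fin d)) B] [ChartedSpace (EuclideanSpace ℝ (Fin l)) K]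
    [IsManifold (𝓡 d) ∞ B] [IsManifold (𝓡 l) ∞ K] :
    Diffeomorph ((𝓡 d).prod (𝓡 l)) (𝓡 (d + l)) (B × K) (PM d l B K) ∞ where
  toFun := fun x => x
  invFun := fun x => x
  left_inv _ := rfl
  right_inv _ := rfl
  contMDiff_toFun := toPM_smooth
  contMDiff_invFun := ofPM_smooth

end

end Pool.Agent.H66.TM
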