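import Pool.Agent.H66.TM.Def

/-!
# The circle
-/

set_option autoImplicit false

namespace Pool.Agent.H66.TM

/-- The projection `ℝ → ℝ / ℤ`, where the circle `ℝ / ℤ` is the torus `Tor 1`. -/
noncomputable def cir (t : ℝ) : Tor 1 := mk (EuclideanSpace.single 0 t)

/-- `φ` is the lift of an orientation preserving homeomorphism of the circle `ℝ / ℤ`. -/
def IsCircleLift (φ : ℝ → ℝ) : Prop :=
  Continuous φ ∧ StrictMono φ ∧ ∀ t, φ (t + 1) = φ t + 1

end Pool.Agent.H66.TM
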