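import Pool.Agent.H66.TM.Sm

/-!
# The torus as a manifold: integral matrices and translations
-/

set_option autoImplicit false
set_option linter.unusedSectionVars false

open Set Filter Topology
open scoped Manifold ContDiff

namespace Pool.Agent.H66.TM

noncomputable section

/-- The homomorphism `𝕋^k → 𝕋^l` given by an integral matrix. -/
def lin {k l : ℕ} (A : Matrix (Fin l) (Fin k) ℤ) (y : Tor k) : Tor l :=
  fun i => ∑ j, A i j • y j

variable {k l m : ℕ}

theorem lin_add (A : Matrix (Fin l) (Fin k) ℤ) (y z : Tor k) :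
    lin A (y + z) = lin A y + lin A z := by
  funext i
  show ∑ j, A i j • (y j + z j) = ∑ j, A i j • y j + ∑ j, A i j • z j
  rw [← Finset.sum_add_distrib]
  exact Finset.sum_congr rfl fun j _ => smul_add _ _ _

theorem lin_zero (A : Matrix (Fin l) (Fin k) ℤ) : lin A (0 : Tor k) = 0 := by
  funext i
  show ∑ j, A i j • (0 : AddCircle (1 : ℝ)) = 0
  simp

theorem lin_neg (A : Matrix (Fin l) (Fin k) ℤ) (y : Tor k) : lin A (-y) = -lin A y := by
  rw [eq_neg_iff_add_eq_zero, ← lin_add, neg_add_cancel, lin_zero]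

theorem lin_sub (A : Matrix (Fin l) (Fin k) ℤ) (y z : Tor k) :
    lin A (y - z) = lin A y - lin A z := by
  rw [sub_eq_add_neg, lin_add, lin_neg, ← sub_eq_add_neg]

theorem lin_mul (A : Matrix (Fin l) (Fin k) ℤ) (B : Matrix (Fin k) (Fin m) ℤ) (y : Tor m) :
    lin (A * B) y = lin A (lin B y) := by
  funext i
  show ∑ j, (A * B) i j • y j = ∑ a, A i a • ∑ j, B a j • y j
  simp_rw [Matrix.mul_apply, Finset.sum_smul, Finset.smul_sum, mul_smul]
  exact Finset.sum_comm

theorem lin_one (y : Tor k) : lin (1 : Matrix (Fin k) (Fin k) ℤ) y = y := by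
  funext i
  show ∑ j, (1 : Matrix (Fin k) (Fin k) ℤ) i j • y j = y i
  simp [Matrix.one_apply]

theorem lin_addm (A B : Matrix (Fin l) (Fin k) ℤ) (y : Tor k) :
    lin (A + B) y = lin A y + lin B y := by
  funext i
  show ∑ j, (A i j + B i j) • y j = ∑ j, A i j • y j + ∑ j, B i j • y j
  rw [← Finset.sum_add_distrib]
  exact Finset.sum_congr rfl fun j _ => add_smul _ _ _

theorem lin_zerom (y : Tor k) : lin (0 : Matrix (Fin l) (Fin k) ℤ) y = 0 := by
  funext i
  show ∑ j, (0 : ℤ) • y j = 0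
  simp

theorem lin_pow (A : Matrix (Fin k) (Fin k) ℤ) (i : ℕ) (y : Tor k) :
    lin (A ^ i) y = (lin A)^[i] y := by
  induction i with
  | zero => rw [pow_zero, lin_one]; rfl
  | succ i ih => rw [pow_succ', lin_mul, ih, Function.iterate_succ_apply']

/-- the linear map on the covering space -/
def linV (A : Matrix (Fin l) (Fin k) ℤ) :
    EuclideanSpace ℝ (Fin k) →L[ℝ] EuclideanSpace ℝ (Fin l) :=
  LinearMap.toContinuousLinearMap
    { toFun := fun v => WithLp.toLp 2 fun i => ∑ j, (A i j : ℝ) * v j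
      map_add' := fun v w => by
        ext i
        show ∑ j, (A i j : ℝ) * (v j + w j) = ∑ j, (A i j : ℝ) * v j + ∑ j, (A i j : ℝ) * w j
        rw [← Finset.sum_add_distrib]
        exact Finset.sum_congr rfl fun j _ => mul_add _ _ _
      map_smul' := fun c v => by
        ext i
        show ∑ j, (A i j : ℝ) * (c * v j) = c * ∑ j, (A i j : ℝ) * v j
        rw [Finset.mul_sum]
        exact Finset.sum_congr rfl fun j _ => by ring }

theorem linV_apply (A : Matrix (Fin l) (Fin k) ℤ) (v : EuclideanSpace ℝ (Fin k)) (i : Fin l) :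
    linV A v i = ∑ j, (A i j : ℝ) * v j := rfl

theorem lin_mk (A : Matrix (Fin l) (Fin k) ℤ) (v : EuclideanSpace ℝ (Fin k)) :
    lin A (mk v) = mk (linV A v) := by
  funext i
  show ∑ j, A i j • ((v j : ℝ) : AddCircle (1 : ℝ)) = ((∑ j, (A i j : ℝ) * v j : ℝ) : AddCircle (1 : ℝ))
  have h1 : ∀ s : Finset (Fin k), ∑ j ∈ s, A i j • ((v j : ℝ) : AddCircle (1 : ℝ)) =
      ((∑ j ∈ s, (A i j : ℝ) * v j : ℝ) : AddCircle (1 : ℝ)) := by
    intro s
    classical
    induction s using Finset.induction_on with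
    | empty => simp
    | insert a s ha ih =>
      rw [Finset.sum_insert ha, Finset.sum_insert ha, ih, AddCircle.coe_add]
      congr 1
      rw [← zsmul_eq_mul, AddCircle.coe_zsmul]
  exact h1 _

theorem lin_smooth (A : Matrix (Fin l) (Fin k) ℤ) : ContMDiff (𝓡 k) (𝓡 l) ∞ (lin A) := by
  refine of_mk (r := ⊤) ?_
  have h1 : ContMDiff (𝓡 k) (𝓡 l) ∞ (fun v => mk (linV A v)) :=
    (mk_smooth l).comp (linV A).contDiff.contMDiff
  refine h1.congr fun v => ?_
  rw [lin_mk]

theorem add_mk_smooth (k : ℕ) : ContMDiff ((𝓡 k).prod (𝓡 k)) (𝓡 k) ∞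
    (fun p : EuclideanSpace ℝ (Fin k) × Tor k => mk p.1 + p.2) := by
  refine of_mk_prod (r := ⊤) ?_
  have h1 : ContMDiff ((𝓡 k).prod (𝓡 k)) (𝓡 k) ∞
      (fun p : EuclideanSpace ℝ (Fin k) × EuclideanSpace ℝ (Fin k) => p.1 + p.2) :=
    contMDiff_fst.add contMDiff_snd
  refine ((mk_smooth k).comp h1).congr fun p => ?_
  show mk p.1 + mk p.2 = mk (p.1 + p.2)
  rw [mk_add]

theorem add_smooth (k : ℕ) : ContMDiff ((𝓡 k).prod (𝓡 k)) (𝓡 k) ∞
    (fun p : Tor k × Tor k => p.1 + p.2) := by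
  refine of_mk_prod (r := ⊤) ?_
  have h1 := (add_mk_smooth k).comp
    (contMDiff_snd.prodMk contMDiff_fst : ContMDiff ((𝓡 k).prod (𝓡 k)) ((𝓡 k).prod (𝓡 k)) ∞
      (fun p : Tor k × EuclideanSpace ℝ (Fin k) => (p.2, p.1)))
  refine h1.congr fun p => ?_
  exact add_comm _ _

theorem ContMDiff.tadd {E : Type*} [NormedAddCommGroup E] [NormedSpace ℝ E] {H : Type*}
    [TopologicalSpace H] {I : ModelWithCorners ℝ E H} {M : Type*} [TopologicalSpace M]
    [ChartedSpace H M] {r : ℕ∞} {a b : M → Tor k} (ha : ContMDiff I (𝓡 k) r a)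
    (hb : ContMDiff I (𝓡 k) r b) : ContMDiff I (𝓡 k) r (fun x => a x + b x) :=
  ((add_smooth k).of_le (by exact_mod_cast le_top)).comp (ha.prodMk hb)

theorem ContMDiff.tlin {E : Type*} [NormedAddCommGroup E] [NormedSpace ℝ E] {H : Type*}
    [TopologicalSpace H] {I : ModelWithCorners ℝ E H} {M : Type*} [TopologicalSpace M]
    [ChartedSpace H M] {r : ℕ∞} {a : M → Tor k} (ha : ContMDiff I (𝓡 k) r a)
    (A : Matrix (Fin l) (Fin k) ℤ) : ContMDiff I (𝓡 l) r (fun x => lin A (a x)) :=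
  ((lin_smooth A).of_le (by exact_mod_cast le_top)).comp ha

/-- translations by a linear image of the parameter -/
def tr (S : (Fin m → ℝ) →L[ℝ] EuclideanSpace ℝ (Fin k)) (t : Fin m → ℝ) (y : Tor k) : Tor k :=
  mk (S t) + y

theorem tr_smooth (S : (Fin m → ℝ) →L[ℝ] EuclideanSpace ℝ (Fin k)) :
    ContMDiff (𝓘(ℝ, Fin m → ℝ).prod (𝓡 k)) (𝓡 k) ∞
      (fun p : (Fin m → ℝ) × Tor k => tr S p.1 p.2) := by
  have h1 : ContMDiff (𝓘(ℝ, Fin m → ℝ).prod (𝓡 k)) (𝓡 k) ∞
      (fun p : (Fin m → ℝ) × Tor k => S p.1) := S.contDiff.contMDiff.comp contMDiff_fst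
  exact (add_mk_smooth k).comp (h1.prodMk contMDiff_snd)

theorem tr_zero (S : (Fin m → ℝ) →L[ℝ] EuclideanSpace ℝ (Fin k)) (y : Tor k) :
    tr S 0 y = y := by
  unfold tr
  rw [map_zero, mk_zero, zero_add]

theorem tr_add (S : (Fin m → ℝ) →L[ℝ] EuclideanSpace ℝ (Fin k)) (s t : Fin m → ℝ) (y : Tor k) :
    tr S (s + t) y = tr S s (tr S t y) := by
  unfold tr
  rw [map_add, mk_add, add_assoc]

end

end Pool.Agent.H66.TM
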