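import Pool.Agent.H66.TM.Sm
import Pool.Agent.H66.TM.Lin
import Pool.Agent.H66.TM.CirDef
import Pool.Agent.H66.L.T2aa45f1a.Q182.CC2

/-!
# The circle: lifts
-/

set_option autoImplicit false
set_option linter.unusedSectionVars false

open Set Filter Topology
open scoped Manifold ContDiff

namespace Pool.Agent.H66.TM

open Pool.Agent.Q182.CC (Lift lift_id lift_add)
open Pool.Agent.Q182

/-- the coordinate -/
noncomputable def e1 : ℝ →L[ℝ] EuclideanSpace ℝ (Fin 1) :=
  LinearMap.toContinuousLinearMap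
    { toFun := fun t => EuclideanSpace.single 0 t
      map_add' := fun s t => by
        ext i
        fin_cases i
        simp
      map_smul' := fun s t => by
        ext i
        fin_cases i
        simp }

theorem e1_zero (t : ℝ) : e1 t 0 = t := by
  show (EuclideanSpace.single 0 t : EuclideanSpace ℝ (Fin 1)) 0 = t
  simp

theorem cir_e1 (t : ℝ) : cir t = mk (e1 t) := rfl

theorem e1_coord (v : EuclideanSpace ℝ (Fin 1)) : e1 (v 0) = v := by
  ext i
  fin_cases i
  exact e1_zero (v 0)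

theorem cir_add (s t : ℝ) : cir (s + t) = cir s + cir t := by
  rw [cir_e1, map_add, mk_add]
  rfl

theorem cir_eq {u v : ℝ} : cir u = cir v ↔ ∃ z : ℤ, u = v + z := by
  rw [cir_e1, cir_e1, mk_eq_iff]
  constructor
  · intro h
    obtain ⟨z, hz⟩ := h 0
    rw [e1_zero, e1_zero] at hz
    exact ⟨z, by linarith⟩
  · rintro ⟨z, hz⟩ i
    refine ⟨z, ?_⟩
    fin_cases i
    show e1 u 0 - e1 v 0 = z
    rw [e1_zero, e1_zero, hz]
    ring

theorem cir_surj : Function.Surjective cir := by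
  intro y
  obtain ⟨v, rfl⟩ := mk_surj 1 y
  exact ⟨v 0, by rw [cir_e1, e1_coord]⟩

theorem cir_smooth : ContMDiff 𝓘(ℝ, ℝ) (𝓡 1) ∞ cir :=
  (mk_smooth 1).comp e1.contDiff.contMDiff

theorem cir_cont : Continuous cir := cir_smooth.continuous

theorem cir_quot : IsQuotientMap cir := by
  have h1 : IsOpenMap cir := by
    have h2 : IsOpenMap e1 := by
      have h3 : (e1 : ℝ → EuclideanSpace ℝ (Fin 1)) = fun t => e1 t := rfl
      let h : ℝ ≃ₜ EuclideanSpace ℝ (Fin 1) :=
        { toFun := e1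
          invFun := fun v => v 0
          left_inv := e1_zero
          right_inv := e1_coord
          continuous_toFun := e1.continuous
          continuous_invFun := by fun_prop }
      exact h.isOpenMap
    exact (mk_open 1).comp h2
  exact h1.isQuotientMap cir_cont cir_surj

/-- the rotations -/
noncomputable def rot (s : ℝ) (y : Tor 1) : Tor 1 := cir s + y

theorem rot_cir (s t : ℝ) : rot s (cir t) = cir (s + t) := (cir_add s t).symm

theorem rot_smooth : ContMDiff (𝓘(ℝ, ℝ).prod (𝓡 1)) (𝓡 1) ∞ (fun q : ℝ × Tor 1 => rot q.1 q.2) :=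
  ContMDiff.tadd (r := ⊤) (cir_smooth.comp contMDiff_fst) contMDiff_snd

/-- a continuous lift of a `C^r` map `ℝ → ℝ / ℤ` is `C^r` -/
theorem cd_of_cir {φ : ℝ → ℝ} (hφ : Continuous φ) {r : ℕ∞}
    (h : ContMDiff 𝓘(ℝ, ℝ) (𝓡 1) r (fun t => cir (φ t))) : ContDiff ℝ r φ := by
  have h1 : ContMDiff 𝓘(ℝ, ℝ) (𝓡 1) r (fun t => e1 (φ t)) :=
    lift_smooth (e1.continuous.comp hφ) h
  have h2 : ContDiff ℝ r (fun t => e1 (φ t)) := h1.contDiff
  have h3 : ContDiff ℝ r (fun t => (EuclideanSpace.proj (𝕜 := ℝ) (0 : Fin 1)) (e1 (φ t))) :=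
    (EuclideanSpace.proj (𝕜 := ℝ) (0 : Fin 1)).contDiff.comp h2
  have e : (fun t => (EuclideanSpace.proj (𝕜 := ℝ) (0 : Fin 1)) (e1 (φ t))) = φ :=
    funext fun t => e1_zero (φ t)
  rw [e] at h3
  exact h3

theorem IsCircleLift.int {φ : ℝ → ℝ} (h : IsCircleLift φ) (z : ℤ) (t : ℝ) :
    φ (t + z) = φ t + z := OT.add_int h.2.2 z t

theorem IsCircleLift.surj {φ : ℝ → ℝ} (h : IsCircleLift φ) : Function.Surjective φ := by
  intro y
  obtain ⟨k, hk⟩ := exists_nat_ge |y - φ 0|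
  have h2 := abs_le.1 (hk : |y - φ 0| ≤ k)
  apply mem_range_of_exists_le_of_exists_ge h.1
  · refine ⟨0 + ((-k : ℤ) : ℝ), ?_⟩
    rw [h.int]
    push_cast
    linarith [h2.1]
  · refine ⟨0 + ((k : ℤ) : ℝ), ?_⟩
    rw [h.int]
    push_cast
    linarith [h2.2]

/-- lifts of `C^r` diffeomorphisms -/
theorem lift_of {φ : ℝ → ℝ} (h : IsCircleLift φ) {r : ℕ∞} (hr : 1 ≤ r) {R R' : Tor 1 → Tor 1}
    (hR : ContMDiff (𝓡 1) (𝓡 1) r R) (hR' : ContMDiff (𝓡 1) (𝓡 1) r R') (hRR : ∀ y, R' (R y) = y)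
    (hφ : ∀ t, R (cir t) = cir (φ t)) : Lift φ := by
  have hr' : (1 : WithTop ℕ∞) ≤ r := by exact_mod_cast hr
  have hle : (r : WithTop ℕ∞) ≤ ∞ := by exact_mod_cast le_top
  have h1 : ContDiff ℝ r φ := by
    refine cd_of_cir h.1 ?_
    have e : (fun t => cir (φ t)) = fun t => R (cir t) := funext fun t => (hφ t).symm
    rw [e]
    exact hR.comp (cir_smooth.of_le hle)
  let o : ℝ ≃o ℝ := h.2.1.orderIsoOfSurjective φ h.surj
  obtain ⟨χ, hχc, hχ1, hχ2⟩ : ∃ χ : ℝ → ℝ, Continuous χ ∧ (∀ t, χ (φ t) = t) ∧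
      ∀ t, φ (χ t) = t :=
    ⟨o.symm, o.symm.continuous, fun t => o.symm_apply_apply t, fun t => o.apply_symm_apply t⟩
  have h2 : ContDiff ℝ r χ := by
    refine cd_of_cir hχc ?_
    have e : (fun t => cir (χ t)) = fun t => R' (cir t) := by
      funext t
      have h3 := hφ (χ t)
      rw [hχ2] at h3
      rw [← h3, hRR]
    rw [e]
    exact hR'.comp (cir_smooth.of_le hle)
  have hd1 : Differentiable ℝ φ := (h1.of_le hr').differentiable one_ne_zero
  have hd2 : Differentiable ℝ χ := (h2.of_le hr').differentiable one_ne_zero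
  refine ⟨h1.of_le hr', fun t => ?_, h.2.2⟩
  have h3 : HasDerivAt (fun t => χ (φ t)) (deriv χ (φ t) * deriv φ t) t :=
    (hd2 (φ t)).hasDerivAt.comp t (hd1 t).hasDerivAt
  have h4 : HasDerivAt (fun t => χ (φ t)) 1 t := by
    have e : (fun t => χ (φ t)) = id := funext hχ1
    rw [e]
    exact hasDerivAt_id t
  have h5 := h3.unique h4
  have h6 : 0 ≤ deriv φ t := h.2.1.monotone.deriv_nonneg
  rcases h6.eq_or_lt with h7 | h7
  · rw [← h7, mul_zero] at h5
    exact absurd h5 zero_ne_one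
  · exact h7

end Pool.Agent.H66.TM
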