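import Mathlib

/-!
# The torus as a manifold: definition

The torus `ℝ^k / ℤ^k` with the smooth structure for which the charts are the local inverses of the
projection `ℝ^k → ℝ^k / ℤ^k`.
-/

set_option autoImplicit false

open Set Filter Topology
open scoped Manifold ContDiff

namespace Pool.Agent.H66.TM

/-- The torus `ℝ^k / ℤ^k`. -/
def Tor (k : ℕ) : Type := Fin k → AddCircle (1 : ℝ)

noncomputable section

instance (k : ℕ) : TopologicalSpace (Tor k) :=
  inferInstanceAs (TopologicalSpace (Fin k → AddCircle (1 : ℝ)))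

instance (k : ℕ) : AddCommGroup (Tor k) :=
  inferInstanceAs (AddCommGroup (Fin k → AddCircle (1 : ℝ)))

instance (k : ℕ) : IsTopologicalAddGroup (Tor k) :=
  inferInstanceAs (IsTopologicalAddGroup (Fin k → AddCircle (1 : ℝ)))

instance (k : ℕ) : CompactSpace (Tor k) := by
  have : Fact ((0 : ℝ) < 1) := ⟨one_pos⟩
  exact inferInstanceAs (CompactSpace (Fin k → AddCircle (1 : ℝ)))

instance (k : ℕ) : T2Space (Tor k) :=
  inferInstanceAs (T2Space (Fin k → AddCircle (1 : ℝ)))

/-- The projection `ℝ^k → ℝ^k / ℤ^k`. -/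
def mk {k : ℕ} (v : EuclideanSpace ℝ (Fin k)) : Tor k := fun i => (v i : AddCircle (1 : ℝ))

theorem mk_surj (k : ℕ) : Function.Surjective (mk (k := k)) := by
  intro y
  choose v hv using fun i => QuotientAddGroup.mk_surjective (y i)
  refine ⟨WithLp.toLp 2 v, ?_⟩
  funext i
  exact hv i

theorem mk_cont (k : ℕ) : Continuous (mk (k := k)) := by
  refine continuous_pi fun i => ?_
  exact (AddCircle.continuous_mk' (1 : ℝ)).comp (by fun_prop)

theorem mk_add {k : ℕ} (v w : EuclideanSpace ℝ (Fin k)) : mk (v + w) = mk v + mk w := by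
  funext i
  exact AddCircle.coe_add (1 : ℝ) (v i) (w i)

theorem mk_zero (k : ℕ) : mk (0 : EuclideanSpace ℝ (Fin k)) = 0 := by
  funext i
  exact AddCircle.coe_zero (1 : ℝ)

theorem mk_eq_iff {k : ℕ} {v w : EuclideanSpace ℝ (Fin k)} :
    mk v = mk w ↔ ∀ i, ∃ z : ℤ, v i - w i = z := by
  constructor
  · intro h i
    have h1 : (v i : AddCircle (1 : ℝ)) = (w i : AddCircle (1 : ℝ)) := congrFun h i
    have h2 : ((v i - w i : ℝ) : AddCircle (1 : ℝ)) = 0 := by
      rw [AddCircle.coe_sub, h1, sub_self]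
    obtain ⟨z, hz⟩ := (AddCircle.coe_eq_zero_iff (1 : ℝ)).mp h2
    exact ⟨z, by rw [← hz]; simp⟩
  · intro h
    funext i
    obtain ⟨z, hz⟩ := h i
    show (v i : AddCircle (1 : ℝ)) = (w i : AddCircle (1 : ℝ))
    rw [← sub_eq_zero, ← AddCircle.coe_sub, AddCircle.coe_eq_zero_iff]
    exact ⟨z, by rw [hz]; simp⟩

theorem mk_open (k : ℕ) : IsOpenMap (mk (k := k)) := by
  have h1 : IsOpenMap (Pi.map (fun (_ : Fin k) (x : ℝ) => (x : AddCircle (1 : ℝ)))) :=
    IsOpenMap.piMap (fun i => QuotientAddGroup.isOpenMap_coe)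
      (Eventually.of_forall fun i => QuotientAddGroup.mk_surjective)
  exact h1.comp (EuclideanSpace.equiv (Fin k) ℝ).toHomeomorph.isOpenMap

theorem mk_inj {k : ℕ} {v x y : EuclideanSpace ℝ (Fin k)} (hx : x ∈ Metric.ball v (1 / 4))
    (hy : y ∈ Metric.ball v (1 / 4)) (h : mk x = mk y) : x = y := by
  rw [mk_eq_iff] at h
  have h1 : ‖x - y‖ < 1 / 2 := by
    rw [← dist_eq_norm]
    have := dist_triangle_right x y v
    rw [Metric.mem_ball] at hx hy
    linarith
  ext i
  obtain ⟨z, hz⟩ := h i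
  have h2 : |x i - y i| < 1 := by
    have h3 : ‖(x - y) i‖ ≤ ‖x - y‖ := PiLp.norm_apply_le (x - y) i
    have h4 : (x - y) i = x i - y i := rfl
    rw [h4, Real.norm_eq_abs] at h3
    linarith
  rw [hz] at h2
  have h5 : z = 0 := by
    have : |(z : ℝ)| < 1 := h2
    rw [← Int.cast_abs] at this
    have h6 : |z| < 1 := by exact_mod_cast this
    exact Int.abs_lt_one_iff.mp h6
  rw [h5, Int.cast_zero, sub_eq_zero] at hz
  exact hz

theorem mk_local (k : ℕ) : IsLocalHomeomorph (mk (k := k)) := by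
  rw [isLocalHomeomorph_iff_isOpenEmbedding_restrict]
  intro v
  refine ⟨Metric.ball v (1 / 4), Metric.ball_mem_nhds v (by norm_num), ?_⟩
  refine IsOpenEmbedding.of_continuous_injective_isOpenMap ?_ ?_ ?_
  · exact (mk_cont k).comp continuous_subtype_val
  · rintro ⟨x, hx⟩ ⟨y, hy⟩ h
    exact Subtype.ext (mk_inj hx hy h)
  · exact (mk_open k).comp Metric.isOpen_ball.isOpenMap_subtype_val

/-- The charts are the local inverses of `mk`. -/
instance (k : ℕ) : ChartedSpace (EuclideanSpace ℝ (Fin k)) (Tor k) :=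
  (mk_local k).chartedSpace (mk_surj k)

end

end Pool.Agent.H66.TM
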