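import Pool.Agent.H66.TM.Def

/-!
# The torus as a manifold: smooth maps
-/

set_option autoImplicit false
set_option linter.unusedSectionVars false

open Set Filter Topology
open scoped Manifold ContDiff

namespace Pool.Agent.H66.TM

noncomputable section

/-- continuous lifts of the projection are locally translations -/
theorem lift_local {k : ℕ} {X : Type*} [TopologicalSpace X] {s t : X → EuclideanSpace ℝ (Fin k)}
    {x : X} (hs : ContinuousAt s x) (ht : ContinuousAt t x) (h : ∀ᶠ y in 𝓝 x, mk (s y) = mk (t y)) :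
    ∀ᶠ y in 𝓝 x, s y = t y + (s x - t x) := by
  have h1 : ∀ᶠ y in 𝓝 x, s y ∈ Metric.ball (s x) (1 / 4) :=
    hs.eventually (Metric.ball_mem_nhds _ (by norm_num))
  have h2 : ∀ᶠ y in 𝓝 x, t y + (s x - t x) ∈ Metric.ball (s x) (1 / 4) := by
    have h3 : ContinuousAt (fun y => t y + (s x - t x)) x := ht.add continuousAt_const
    refine h3.eventually ?_
    have : t x + (s x - t x) = s x := by abel
    show ∀ᶠ y in 𝓝 (t x + (s x - t x)), y ∈ Metric.ball (s x) (1 / 4)
    rw [this]
    exact Metric.ball_mem_nhds _ (by norm_num)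
  have h0 : mk (s x) = mk (t x) := h.self_of_nhds
  filter_upwards [h, h1, h2] with y hy hy1 hy2
  refine mk_inj hy1 hy2 ?_
  rw [mk_add, hy]
  have h4 : mk (s x - t x) = 0 := by
    have h5 : mk (s x - t x) + mk (t x) = mk (s x) := by rw [← mk_add]; congr 1; abel
    rw [h0] at h5
    exact add_eq_right.mp h5
  rw [h4, add_zero]

/-- the sections given by the charts -/
theorem chart_mk {k : ℕ} {e : OpenPartialHomeomorph (Tor k) (EuclideanSpace ℝ (Fin k))}
    (he : e ∈ atlas (EuclideanSpace ℝ (Fin k)) (Tor k)) :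
    (∀ y ∈ e.source, mk (e y) = y) ∧ ∀ v ∈ e.target, e.symm v = mk v := by
  obtain ⟨q, hq⟩ := he
  have h1 : ∀ y ∈ e.source, mk (e y) = y := by
    intro y hy
    rw [← hq] at hy ⊢
    simp only [chartAt_self_eq, OpenPartialHomeomorph.trans_refl] at hy ⊢
    exact (mk_local k).apply_localInverseAt_of_mem hy
  refine ⟨h1, fun v hv => ?_⟩
  have h2 := h1 (e.symm v) (e.map_target hv)
  rw [e.right_inv hv] at h2
  exact h2.symm

theorem trans_smooth {k : ℕ} {O : Set (EuclideanSpace ℝ (Fin k))} (hO : IsOpen O)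
    {s : EuclideanSpace ℝ (Fin k) → EuclideanSpace ℝ (Fin k)} (hs : ContinuousOn s O)
    (h : ∀ v ∈ O, mk (s v) = mk v) : ContDiffOn ℝ ∞ s O := by
  intro v hv
  have h1 : ∀ᶠ w in 𝓝 v, s w = w + (s v - v) := by
    refine lift_local (t := fun w => w) (hs.continuousAt (hO.mem_nhds hv)) continuousAt_id ?_
    filter_upwards [hO.mem_nhds hv] with w hw
    exact h w hw
  have h2 : ContDiffAt ℝ ∞ (fun w : EuclideanSpace ℝ (Fin k) => w + (s v - v)) v :=
    (contDiff_id.add contDiff_const).contDiffAt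
  exact (h2.congr_of_eventuallyEq h1).contDiffWithinAt

instance (k : ℕ) : IsManifold (𝓡 k) ∞ (Tor k) := by
  refine isManifold_of_contDiffOn _ _ _ fun e e' he he' => ?_
  simp only [modelWithCornersSelf_coe, modelWithCornersSelf_coe_symm, Function.id_comp,
    Function.comp_id, preimage_id_eq, id_eq, range_id, inter_univ]
  refine trans_smooth (e.symm ≫ₕ e').open_source (e.symm ≫ₕ e').continuousOn fun v hv => ?_
  rw [OpenPartialHomeomorph.trans_source] at hv
  obtain ⟨hv1, hv2⟩ := hv
  show mk (e' (e.symm v)) = mk v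
  rw [(chart_mk he').1 _ hv2, (chart_mk he).2 v hv1]

/-- the projection is smooth -/
theorem mk_smooth (k : ℕ) : ContMDiff (𝓡 k) (𝓡 k) ∞ (mk (k := k)) := by
  intro v
  have hm := mem_chart_source (EuclideanSpace ℝ (Fin k)) (mk v)
  have hat := chart_mem_atlas (EuclideanSpace ℝ (Fin k)) (mk v)
  set e := chartAt (EuclideanSpace ℝ (Fin k)) (mk v) with he
  -- `mk = e.symm ∘ (e ∘ mk)`, and `e ∘ mk` is a translation
  have h1 : ContinuousAt (fun w => e (mk w)) v :=
    (e.continuousAt hm).comp (mk_cont k).continuousAt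
  have hev : ∀ᶠ w in 𝓝 v, mk w ∈ e.source :=
    (mk_cont k).continuousAt.eventually (e.open_source.mem_nhds hm)
  have h2 : ∀ᶠ w in 𝓝 v, e (mk w) = w + (e (mk v) - v) := by
    refine lift_local (t := fun w => w) h1 continuousAt_id ?_
    filter_upwards [hev] with w hw
    exact (chart_mk hat).1 _ hw
  have h3 : ContMDiffAt (𝓡 k) (𝓡 k) ∞ (fun w => e.symm (w + (e (mk v) - v))) v := by
    have h4 : ContMDiffAt (𝓡 k) (𝓡 k) ∞ e.symm (v + (e (mk v) - v)) := by
      have h5 : v + (e (mk v) - v) = e (mk v) := by abel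
      rw [h5]
      exact (contMDiffOn_chart_symm (I := 𝓡 k) (n := ∞) _ (e.map_source hm)).contMDiffAt
        (e.open_target.mem_nhds (e.map_source hm))
    have h6 : ContMDiffAt (𝓡 k) (𝓡 k) ∞ (fun w : EuclideanSpace ℝ (Fin k) =>
        w + (e (mk v) - v)) v :=
      (contDiff_id.add contDiff_const).contMDiff.contMDiffAt
    exact h4.comp v h6
  refine h3.congr_of_eventuallyEq ?_
  filter_upwards [h2, hev] with w hw1 hw2
  rw [← hw1, e.left_inv hw2]

/-- maps from the torus are smooth if they are smooth on the covering space -/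
theorem of_mk {k : ℕ} {E' : Type*} [NormedAddCommGroup E'] [NormedSpace ℝ E'] {H' : Type*}
    [TopologicalSpace H'] {J : ModelWithCorners ℝ E' H'} {M' : Type*} [TopologicalSpace M']
    [ChartedSpace H' M'] {φ : Tor k → M'} {r : ℕ∞}
    (h : ContMDiff (𝓡 k) J r (fun v => φ (mk v))) : ContMDiff (𝓡 k) J r φ := by
  intro y
  have hm := mem_chart_source (EuclideanSpace ℝ (Fin k)) y
  have hat := chart_mem_atlas (EuclideanSpace ℝ (Fin k)) y
  set e := chartAt (EuclideanSpace ℝ (Fin k)) y with he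
  have h1 : ContMDiffAt (𝓡 k) (𝓡 k) r e y :=
    (contMDiffOn_chart (I := 𝓡 k) (n := r) y hm).contMDiffAt (e.open_source.mem_nhds hm)
  refine ((h (e y)).comp y h1).congr_of_eventuallyEq ?_
  filter_upwards [e.open_source.mem_nhds hm] with w hw
  show φ w = φ (mk (e w))
  rw [(chart_mk hat).1 w hw]

/-- maps from products with the torus -/
theorem of_mk_prod {k : ℕ} {E' : Type*} [NormedAddCommGroup E'] [NormedSpace ℝ E'] {H' : Type*}
    [TopologicalSpace H'] {J : ModelWithCorners ℝ E' H'} {M' : Type*} [TopologicalSpace M']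
    [ChartedSpace H' M']
    {E : Type*} [NormedAddCommGroup E] [NormedSpace ℝ E] {H : Type*}
    [TopologicalSpace H] {I : ModelWithCorners ℝ E H} {M : Type*} [TopologicalSpace M]
    [ChartedSpace H M] {φ : M × Tor k → M'} {r : ℕ∞}
    (h : ContMDiff (I.prod (𝓡 k)) J r (fun p : M × EuclideanSpace ℝ (Fin k) => φ (p.1, mk p.2))) :
    ContMDiff (I.prod (𝓡 k)) J r φ := by
  rintro ⟨x, y⟩
  have hm := mem_chart_source (EuclideanSpace ℝ (Fin k)) y
  have hat := chart_mem_atlas (EuclideanSpace ℝ (Fin k)) y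
  set e := chartAt (EuclideanSpace ℝ (Fin k)) y with he
  have h1 : ContMDiffAt (𝓡 k) (𝓡 k) r e y :=
    (contMDiffOn_chart (I := 𝓡 k) (n := r) y hm).contMDiffAt (e.open_source.mem_nhds hm)
  have h2 : ContMDiffAt (I.prod (𝓡 k)) (I.prod (𝓡 k)) r (fun p : M × Tor k => (p.1, e p.2)) (x, y) :=
    contMDiffAt_fst.prodMk (h1.comp (x, y) contMDiffAt_snd)
  refine ((h (x, e y)).comp (x, y) h2).congr_of_eventuallyEq ?_
  have h3 : ∀ᶠ p : M × Tor k in 𝓝 (x, y), p.2 ∈ e.source :=
    continuousAt_snd.eventually (e.open_source.mem_nhds hm)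
  filter_upwards [h3] with p hp
  show φ p = φ (p.1, mk (e p.2))
  rw [(chart_mk hat).1 p.2 hp]

/-- continuous lifts of smooth maps are smooth -/
theorem lift_smooth {k : ℕ} {E : Type*} [NormedAddCommGroup E] [NormedSpace ℝ E] {H : Type*}
    [TopologicalSpace H] {I : ModelWithCorners ℝ E H} {M : Type*} [TopologicalSpace M]
    [ChartedSpace H M] {s : M → EuclideanSpace ℝ (Fin k)} (hs : Continuous s) {r : ℕ∞}
    (h : ContMDiff I (𝓡 k) r (fun x => mk (s x))) : ContMDiff I (𝓡 k) r s := by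
  intro x
  have hm := mem_chart_source (EuclideanSpace ℝ (Fin k)) (mk (s x))
  have hat := chart_mem_atlas (EuclideanSpace ℝ (Fin k)) (mk (s x))
  set e := chartAt (EuclideanSpace ℝ (Fin k)) (mk (s x)) with he
  have h1 : ContMDiffAt (𝓡 k) (𝓡 k) r e (mk (s x)) :=
    (contMDiffOn_chart (I := 𝓡 k) (n := r) _ hm).contMDiffAt (e.open_source.mem_nhds hm)
  have h2 : ContMDiffAt I (𝓡 k) r (fun z => e (mk (s z))) x := h1.comp x (h x)
  have hev : ∀ᶠ z in 𝓝 x, mk (s z) ∈ e.source :=
    (h x).continuousAt.eventually (e.open_source.mem_nhds hm)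
  have h3 : ∀ᶠ z in 𝓝 x, s z = e (mk (s z)) + (s x - e (mk (s x))) := by
    refine lift_local (t := fun z => e (mk (s z))) hs.continuousAt h2.continuousAt ?_
    filter_upwards [hev] with z hz
    rw [(chart_mk hat).1 _ hz]
  exact (h2.add contMDiffAt_const).congr_of_eventuallyEq h3

end

end Pool.Agent.H66.TM
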